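import Pool.Agent.H89.TS3

set_option autoImplicit false

namespace Pool.Agent.Results.MP_ebc7ea_an.Tsirelson

/-- Admissible families `n ≤ E_1 < ... < E_n` of nonempty finite sets. Coordinates are numbered
from `0`, so the index `k` stands for the positive integer `k + 1`. -/
def Admissible (L : List (Finset ℕ)) : Prop :=
  (∀ E ∈ L, E.Nonempty) ∧ L.Pairwise (fun E F => ∀ a ∈ E, ∀ b ∈ F, a < b) ∧
    ∀ E ∈ L, ∀ k ∈ E, L.length ≤ k + 1

/-- On finitely supported vectors, the norm is the supremum of the moduli of the coordinates and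
of the numbers `(1/2) ∑ ‖E_i x‖` over admissible families. -/
def IsTsirelson {X : Type} [NormedAddCommGroup X] [NormedSpace ℝ X] (b : SchauderBasis ℝ X) :
    Prop :=
  ∀ x : ℕ →₀ ℝ, IsLUB
    {r | (∃ k, r = |x k|) ∨ ∃ L, Admissible L ∧
      r = 1 / 2 * (L.map fun E => ‖Finsupp.linearCombination ℝ b (x.filter (· ∈ E))‖).sum}
    ‖Finsupp.linearCombination ℝ b x‖

theorem result :
    (∃ (X : Type) (_ : NormedAddCommGroup X) (_ : NormedSpace ℝ X) (_ : CompleteSpace X)
      (b : SchauderBasis ℝ X), IsTsirelson b) ∧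
    ∀ (X : Type) [NormedAddCommGroup X] [NormedSpace ℝ X] [CompleteSpace X]
      (b : SchauderBasis ℝ X), IsTsirelson b →
      ∀ A : X →L[ℝ] X, (∃ δ : ℝ, 0 < δ ∧ ∀ k, δ ≤ |b.coord k (A (b k))|) →
        ∃ R S : X →L[ℝ] X, S ∘L A ∘L R = ContinuousLinearMap.id ℝ X := by
  constructor
  · obtain ⟨X, i1, i2, i3, e, f, hd, hbi, H⟩ := H89.TS.exists_space
    refine ⟨X, i1, i2, i3, ⟨e, f, fun i j => by
      rw [hbi]; by_cases h : i = j <;> simp [h], fun x => ?_⟩, H⟩
    rw [HasSum, SummationFilter.conditional_filter_eq_map_range, Filter.tendsto_map'_iff]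
    exact H89.TS.schauder' hd hbi H x
  · intro X _ _ _ b H A ⟨δ, hδ, h⟩
    refine H89.TS.fp (e := b) (f := b.coord) (fun x => ?_) (fun i j => ?_) H A hδ h
    · have := b.expansion x
      rw [HasSum, SummationFilter.conditional_filter_eq_map_range, Filter.tendsto_map'_iff] at this
      refine mem_closure_of_tendsto this (Filter.Eventually.of_forall fun n => ?_)
      refine ⟨H89.TS.res (Finset.range n) (Finsupp.onFinset (Finset.range n)
        (fun i => if i ∈ Finset.range n then b.coord i x else 0) fun i hi => by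
          by_contra hn
          exact hi (if_neg hn)), ?_⟩
      rw [H89.TS.lc_res]
      exact Finset.sum_congr rfl fun i hi => by rw [Finsupp.onFinset_apply, if_pos hi]
    · rw [b.ortho]
      by_cases h : i = j <;> simp [h]

end Pool.Agent.Results.MP_ebc7ea_an.Tsirelson
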